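import Mathlib
import Pool.Agent.Y298.GA.Stm
import Pool.Agent.Y298.CA.Stm2
import Pool.Agent.Y272.GA.Bas

/-!
# Lower bounds in the space of all polynomials near `z ^ d + c₀`: statements

Critical orbits of the polynomials `z ^ d + w + a z` with a small entire perturbation `a`: the orbit of
the critical value `w` hits the critical point for a parameter `w` close to `c₀`.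
-/

set_option autoImplicit false

open Set Filter Metric MeasureTheory Topology

namespace Pool.Agent.Y298.EX

open Pool.Agent.TH279.MD Pool.Agent.Y298.SH Pool.Agent.Y298.SH.CD
open Pool.Agent.Y298.CA (Lyap)
open Pool.Agent.Y272.GA (FF ee dF)

/-- Small entire perturbations. -/
structure Pt (a : ℂ → ℂ) (s : ℝ) : Prop where
  hol : Differentiable ℂ a
  le : ∀ z ∈ ball (0 : ℂ) 8, ‖a z‖ ≤ s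
  dle : ∀ z ∈ ball (0 : ℂ) 8, ‖deriv a z‖ ≤ s

/-- The perturbed map with critical value `w`. -/
def mp (d : ℕ) (a : ℂ → ℂ) (w z : ℂ) : ℂ := z ^ d + (w + a z)

/-- The orbit of `w` under `mp d a w`. -/
def gg (d : ℕ) (a : ℂ → ℂ) (n : ℕ) (w : ℂ) : ℂ := (mp d a w)^[n] w

/-- The Lipschitz constant. -/
noncomputable def LL (d : ℕ) : ℝ := d * 3 ^ (d - 1) + 1

/-- The passage condition up to the time `k`. -/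
def Pass (d : ℕ) (B θ s : ℝ) (c₀ : ℂ) (k : ℕ) : Prop :=
  ∀ j < k, B * θ ^ j * s * Pd d c₀ j ≤ ‖zz d c₀ j‖

/-- The condition on the `m` further steps. -/
def Fur (d : ℕ) (s : ℝ) (c₀ : ℂ) (k m : ℕ) : Prop :=
  4 * s * LL d ^ m ≤ 1 ∧ ∀ j, k ≤ j → j < k + m →
    12 * ((m : ℝ) + 1) * ((d : ℝ) ^ 2 * 3 ^ d) * s * LL d ^ m ≤ ‖zz d c₀ j‖ ^ (d - 1)

/-- Inverses of maps with small distortion. -/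
def S_INV : Prop := ∀ (F : ℂ → ℂ) (w D : ℂ) (ρ : ℝ), 0 < ρ → D ≠ 0 →
  DifferentiableOn ℂ F (ball w ρ) → (∀ w' ∈ ball w ρ, ‖deriv F w' - D‖ ≤ 1 / 4 * ‖D‖) →
  ∃ G : ℂ → ℂ, DifferentiableOn ℂ G (ball (F w) (‖D‖ * ρ / 2)) ∧
    ∀ y ∈ ball (F w) (‖D‖ * ρ / 2), G y ∈ ball w ρ ∧ F (G y) = y

/-- A holomorphic preimage of the critical point. -/
def S_ROOT : Prop := ∀ (d : ℕ) (c₀ : ℂ) (δ : ℝ), 2 ≤ d → c₀ ≠ 0 → ‖c₀‖ ≤ 2 → 0 < δ →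
  ∃ (ζ₀ : ℂ) (s₀ : ℝ), ζ₀ ^ d = -c₀ ∧ 0 < s₀ ∧ ∀ (a : ℂ → ℂ) (κ : ℂ), Pt a s₀ → ‖κ‖ ≤ s₀ →
    ∃ ζ : ℂ → ℂ, DifferentiableOn ℂ ζ (ball c₀ s₀) ∧
      ∀ w ∈ ball c₀ s₀, ‖ζ w - ζ₀‖ ≤ δ ∧ ζ w ^ d + (w + a (ζ w)) = κ

/-- Schottky's theorem for functions omitting `κ` and a moving value `ζ`. -/
def S_SHO : Prop := ∀ δ : ℝ, 0 < δ → ∃ C : ℝ, 0 < C ∧ ∀ (F ζ : ℂ → ℂ) (w κ ζ₀ : ℂ) (ρ : ℝ),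
  0 < ρ → DifferentiableOn ℂ F (ball w ρ) → DifferentiableOn ℂ ζ (ball w ρ) → δ ≤ ‖ζ₀‖ →
  ‖ζ₀‖ ≤ 2 → ‖κ‖ ≤ δ / 8 → (∀ w' ∈ ball w ρ, ‖ζ w' - ζ₀‖ ≤ δ / 8) → ‖F w‖ ≤ 3 →
  (∀ w' ∈ ball w ρ, F w' ≠ κ ∧ F w' ≠ ζ w') → ‖deriv F w‖ * ρ ≤ C

/-- A parameter at which the perturbed critical value hits the unperturbed one at the time `k`. -/
def S_HIT : Prop := ∀ (d : ℕ) (C₁ lam θ B Ca : ℝ), 2 ≤ d → 1 ≤ C₁ → 1 < lam → 1 < θ →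
  GA.PC d C₁ lam θ B Ca → ∀ c₀ : ℂ, CEp d C₁ lam c₀ → ∃ (κg η s₀ : ℝ) (J : ℕ), 0 < κg ∧ 0 < η ∧
    η ≤ 1 / 4 ∧ 0 < s₀ ∧ s₀ ≤ 1 ∧ ∀ (a : ℂ → ℂ) (s : ℝ) (k : ℕ), 0 < s → s ≤ s₀ → J ≤ k →
      Pass d B θ s c₀ k → Pt a (η * s) → ∃ w ∈ ball c₀ (s / 8), gg d a k w = zz d c₀ k ∧
        κg * Pd d c₀ k ≤ ‖deriv (gg d a k) w‖

/-- The further steps. -/
def S_EXT : Prop := ∀ (d : ℕ) (c₀ : ℂ) (κg s : ℝ) (k m : ℕ) (a : ℂ → ℂ) (w : ℂ), 2 ≤ d →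
  (∀ j, ‖zz d c₀ j‖ ≤ 2) → 0 < κg → 0 < s → s ≤ 1 → Pt a s → ‖w - c₀‖ ≤ s →
  gg d a k w = zz d c₀ k → κg * Pd d c₀ k ≤ ‖deriv (gg d a k) w‖ → Fur d s c₀ k m →
  4 * LL d ^ m ≤ κg * Pd d c₀ (k + m) →
    ‖gg d a (k + m) w‖ ≤ 3 ∧ κg / 4 * Pd d c₀ (k + m) ≤ ‖deriv (gg d a (k + m)) w‖

/-- The critical value is periodic for a parameter close to `c₀`. -/
def S_PSCH : Prop := ∀ (d : ℕ) (C₁ lam θ B Ca : ℝ), 2 ≤ d → 1 ≤ C₁ → 1 < lam → 1 < θ →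
  GA.PC d C₁ lam θ B Ca → ∀ c₀ : ℂ, CEp d C₁ lam c₀ → ∃ (C η s₀ : ℝ) (J : ℕ), 0 < C ∧ 0 < η ∧
    η ≤ 1 / 4 ∧ 0 < s₀ ∧ s₀ ≤ 1 ∧ ∀ (a : ℂ → ℂ) (κ : ℂ) (s : ℝ) (k m : ℕ), 0 < s → s ≤ s₀ →
      J ≤ k → Pass d B θ s c₀ k → Fur d s c₀ k m → C < s * Pd d c₀ (k + m) → Pt a (η * s) →
      ‖κ‖ ≤ s₀ → ∃ w ∈ ball c₀ (s / 4), ∃ n ≤ k + m + 1, gg d a n w = κ

/-- Comparison of the orbits of two nearby maps, the passage up to the time `k`, then `m` further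
steps. -/
def S_PTWO : Prop := ∀ (d : ℕ) (C₁ lam θ B Ca : ℝ), 2 ≤ d → GA.PC d C₁ lam θ B Ca →
  ∀ c₀ : ℂ, CEp d C₁ lam c₀ → ∀ (s Gb : ℝ) (k m : ℕ), 0 < s → s ≤ 1 → Pass d B θ s c₀ k →
  (∀ j ≤ k, Pd d c₀ j ≤ Gb) → 1 ≤ Gb → ∀ (p q : ℂ → ℂ) (η : ℝ), Differentiable ℂ p →
  Differentiable ℂ q → (∀ z ∈ ball (0 : ℂ) 8, ‖p z - c₀‖ ≤ s / 2) →
  (∀ z ∈ ball (0 : ℂ) 8, ‖deriv p z‖ ≤ s / 2) → (∀ z ∈ ball (0 : ℂ) 8, ‖q z - p z‖ ≤ η) →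
  (∀ z ∈ ball (0 : ℂ) 8, ‖deriv q z - deriv p z‖ ≤ η) → 0 < η → η ≤ s / 16 →
  ∀ (x y : ℂ) (ρ : ℝ), x ∈ ball c₀ s → ‖y - x‖ ≤ ρ → ρ ≤ s / 2 →
  (∀ j, ‖(fun z => z ^ d + p z)^[j] x‖ ≤ 5 / 2) →
  (2 * Gb * ρ + 16 * Ca * Gb * η + η) * LL d ^ m ≤ 1 / 2 → ∀ j ≤ k + m,
    ‖(fun z => z ^ d + q z)^[j] y - (fun z => z ^ d + p z)^[j] x‖ ≤
      (2 * Gb * ρ + 16 * Ca * Gb * η + η) * LL d ^ m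

/-- The map is almost flat near a critical point. -/
def S_QUAD : Prop := ∀ (d : ℕ) (a : ℂ → ℂ) (κ : ℂ) (s σ ρ : ℝ), 2 ≤ d → Pt a s → 0 < s →
  0 < σ → σ ≤ 1 → s ≤ σ ^ (d - 1) → ‖κ‖ ≤ σ → d * κ ^ (d - 1) + deriv a κ = 0 → 0 ≤ ρ → ρ ≤ σ →
  ∀ z ∈ closedBall κ ρ, ‖(z ^ d + a z) - (κ ^ d + a κ)‖ ≤
    ((d : ℝ) ^ 2 * 2 ^ d + 1) * (σ ^ (d - 2) * ρ ^ 2)

/-- The trap around a periodic critical point, for all maps near by. -/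
def S_PATT : Prop := ∀ (d : ℕ) (C₁ lam θ B Ca : ℝ), 2 ≤ d → GA.PC d C₁ lam θ B Ca →
  ∀ c₀ : ℂ, CEp d C₁ lam c₀ → ∀ (s Gb : ℝ) (k m : ℕ), 0 < s → s ≤ 1 → Pass d B θ s c₀ k →
  (∀ j ≤ k, Pd d c₀ j ≤ Gb) → 1 ≤ Gb → ∀ (a : ℂ → ℂ) (κ w : ℂ) (n : ℕ) (σ ρ η ϱ : ℝ),
  Pt a (s / 4) → w ∈ ball c₀ (s / 4) → d * κ ^ (d - 1) + deriv a κ = 0 → κ ^ d + a κ = 0 →
  n ≤ k + m → gg d a n w = κ → (∀ j, ‖gg d a j w‖ ≤ 5 / 2) → 0 < σ → σ ≤ 1 →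
  s ≤ σ ^ (d - 1) → ‖κ‖ ≤ σ → 0 < ρ → ρ ≤ σ → 0 < η → η ≤ s / 16 →
  ϱ = ((d : ℝ) ^ 2 * 2 ^ d + 1) * (σ ^ (d - 2) * ρ ^ 2) + η → ϱ ≤ s / 2 →
  (2 * Gb * ϱ + 16 * Ca * Gb * η + η) * LL d ^ m ≤ 1 / 2 →
  (2 * Gb * ϱ + 16 * Ca * Gb * η + η) * LL d ^ m < ρ → ∀ q : ℂ → ℂ, Differentiable ℂ q →
  (∀ z ∈ ball (0 : ℂ) 8, ‖q z - (w + a z)‖ ≤ η) →
  (∀ z ∈ ball (0 : ℂ) 8, ‖deriv q z - deriv a z‖ ≤ η) →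
  ∀ z ∈ closedBall κ ρ, (fun z => z ^ d + q z)^[n + 1] z ∈ ball κ ρ

/-- The choice of the times. -/
def S_SEL : Prop := ∀ (d : ℕ) (χ : ℝ) (c₀ : ℂ) (C₁ lam : ℝ), 2 ≤ d → Lyap d χ c₀ →
  CEp d C₁ lam c₀ → ∀ ε : ℝ, 0 < ε → ∃ θ : ℝ, 1 < θ ∧ ∀ (B CS : ℝ) (J : ℕ), 0 < B → 0 < CS →
    ∃ s₀ : ℝ, 0 < s₀ ∧ s₀ ≤ 1 ∧ ∀ s : ℝ, 0 < s → s ≤ s₀ → ∃ (k m : ℕ) (Gb : ℝ), J ≤ k ∧
      Pass d B θ s c₀ k ∧ (∀ j ≤ k, Pd d c₀ j ≤ Gb) ∧ 1 ≤ Gb ∧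
      Gb * LL d ^ (m + 1) ≤ s ^ (-(1 + ε)) ∧ Fur d s c₀ k m ∧ CS < s * Pd d c₀ (k + m)

/-- **Periodic critical points in all directions.** -/
def S_LOW : Prop := ∀ (d : ℕ) (χ : ℝ) (c₀ : ℂ), 2 ≤ d → Lyap d χ c₀ → ∀ ε : ℝ, 0 < ε →
  ∃ C r₀ : ℝ, 1 ≤ C ∧ 0 < r₀ ∧ ∀ r : ℝ, 0 < r → r ≤ r₀ → ∀ b : Fin (d + 1) → ℂ,
    ‖b - ee d c₀‖ ≤ r → ∀ κ : ℂ, dF d b κ = 0 → ‖κ‖ ≤ 1 → ∃ (t₁ : ℂ) (n : ℕ), ‖t₁‖ ≤ C * r ∧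
      ∀ b' : Fin (d + 1) → ℂ,
        ‖b' - (b + Pi.single 0 t₁)‖ ≤ r ^ ((d : ℝ) / ((d : ℝ) - 1) + ε) →
        ∀ z ∈ closedBall κ (r ^ (1 / ((d : ℝ) - 1) + ε / 2)),
          (FF d b')^[n + 1] z ∈ ball κ (r ^ (1 / ((d : ℝ) - 1) + ε / 2))

end Pool.Agent.Y298.EX
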