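import Mathlib
import Pool.Agent.Y298.EX.Stm
import Pool.Agent.Y272.GA.Bas

/-!
# Periodic critical points in all directions
-/

set_option autoImplicit false

open Set Filter Metric MeasureTheory Topology

namespace Pool.Agent.Y298.EX

open Pool.Agent.TH279.MD Pool.Agent.Y298.SH Pool.Agent.Y298.SH.CD
open Pool.Agent.Y298.CA (Lyap S_LYA)
open Pool.Agent.Y272.GA (FF ee dF FF_ee dF_ee FF_sub_FF dF_sub_dF hasDerivAt_FF differentiable_FF
  deriv_FF sum_ee f_apply)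

/-- extraction of a threshold -/
theorem ev_exists {P : ℝ → Prop} (h : ∀ᶠ r : ℝ in 𝓝[>] 0, P r) :
    ∃ r₀ : ℝ, 0 < r₀ ∧ ∀ r : ℝ, 0 < r → r ≤ r₀ → P r := by
  rw [(nhdsGT_basis (0 : ℝ)).eventually_iff] at h
  obtain ⟨r₁, h1, h2⟩ := h
  exact ⟨r₁ / 2, by positivity, fun r hr hr' => h2 ⟨hr, by linarith⟩⟩

/-- powers of small radii -/
theorem ev_small {C a δ : ℝ} (ha : 0 < a) (hδ : 0 < δ) : ∀ᶠ r : ℝ in 𝓝[>] 0, C * r ^ a < δ := by
  have h1 : Tendsto (fun r : ℝ => C * r ^ a) (𝓝[>] 0) (𝓝 (C * (0 : ℝ) ^ a)) := by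
    apply Tendsto.const_mul
    exact (Real.continuousAt_rpow_const 0 a (Or.inr ha.le)).tendsto.mono_left nhdsWithin_le_nhds
  rw [Real.zero_rpow ha.ne', mul_zero] at h1
  exact h1.eventually (gt_mem_nhds hδ)

/-- the constant for the disc of radius `8` -/
noncomputable def K8 (d : ℕ) : ℝ := ((d : ℝ) + 1) ^ 2 * 8 ^ d

theorem one_le_K8 (d : ℕ) : 1 ≤ K8 d := by
  unfold K8
  have h1 : (1 : ℝ) ≤ ((d : ℝ) + 1) ^ 2 := one_le_pow₀ (by linarith [Nat.cast_nonneg (α := ℝ) d])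
  have h2 : (1 : ℝ) ≤ 8 ^ d := one_le_pow₀ (by norm_num)
  exact one_le_mul_of_one_le_of_one_le h1 h2

theorem pow_le_eight {d : ℕ} {z : ℂ} (hz : ‖z‖ ≤ 8) {m : ℕ} (hm : m ≤ d) : ‖z‖ ^ m ≤ 8 ^ d :=
  (pow_le_pow_left₀ (norm_nonneg z) hz m).trans (pow_le_pow_right₀ (by norm_num) hm)

theorem pows8 {d : ℕ} (v : Fin (d + 1) → ℂ) {z : ℂ} (hz : ‖z‖ ≤ 8) :
    ‖∑ i : Fin (d + 1), v i * z ^ (i : ℕ)‖ ≤ K8 d * ‖v‖ := by
  calc ‖∑ i : Fin (d + 1), v i * z ^ (i : ℕ)‖ ≤ ∑ i : Fin (d + 1), ‖v i * z ^ (i : ℕ)‖ :=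
        norm_sum_le _ _
    _ ≤ ∑ _i : Fin (d + 1), ‖v‖ * 8 ^ d := by
        refine Finset.sum_le_sum fun i _ => ?_
        rw [norm_mul, norm_pow]
        exact mul_le_mul (norm_le_pi_norm v i) (pow_le_eight hz (by omega)) (by positivity)
          (norm_nonneg _)
    _ = ((d : ℝ) + 1) * 8 ^ d * ‖v‖ := by
        rw [Finset.sum_const, Finset.card_univ, Fintype.card_fin, nsmul_eq_mul]
        push_cast
        ring
    _ ≤ K8 d * ‖v‖ := by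
        unfold K8
        have h1 : (d : ℝ) + 1 ≤ ((d : ℝ) + 1) ^ 2 := by
          have := Nat.cast_nonneg (α := ℝ) d
          nlinarith
        gcongr

theorem dpows8 {d : ℕ} (v : Fin (d + 1) → ℂ) {z : ℂ} (hz : ‖z‖ ≤ 8) :
    ‖∑ i : Fin (d + 1), v i * (((i : ℕ) : ℂ) * z ^ ((i : ℕ) - 1))‖ ≤ K8 d * ‖v‖ := by
  calc ‖∑ i : Fin (d + 1), v i * (((i : ℕ) : ℂ) * z ^ ((i : ℕ) - 1))‖
      ≤ ∑ i : Fin (d + 1), ‖v i * (((i : ℕ) : ℂ) * z ^ ((i : ℕ) - 1))‖ := norm_sum_le _ _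
    _ ≤ ∑ _i : Fin (d + 1), ‖v‖ * (((d : ℝ) + 1) * 8 ^ d) := by
        refine Finset.sum_le_sum fun i _ => ?_
        rw [norm_mul, norm_mul, norm_pow, Complex.norm_natCast]
        have hi := i.isLt
        have h3 : (((i : ℕ) : ℝ)) ≤ (d : ℝ) + 1 := by exact_mod_cast hi.le
        exact mul_le_mul (norm_le_pi_norm v i) (mul_le_mul h3 (pow_le_eight hz (by omega))
          (by positivity) (by positivity)) (by positivity) (norm_nonneg _)
    _ = K8 d * ‖v‖ := by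
        rw [Finset.sum_const, Finset.card_univ, Fintype.card_fin, nsmul_eq_mul]
        unfold K8
        push_cast
        ring

variable {d : ℕ} {c₀ : ℂ}

/-- The perturbation with the critical point `κ`. -/
noncomputable def pa (d : ℕ) (b : Fin (d + 1) → ℂ) (κ z : ℂ) : ℂ := FF d b z - z ^ d - FF d b κ

theorem hasDerivAt_pa (b : Fin (d + 1) → ℂ) (κ z : ℂ) :
    HasDerivAt (pa d b κ) (dF d b z - d * z ^ (d - 1)) z :=
  ((hasDerivAt_FF b z).fun_sub (hasDerivAt_pow d z)).sub_const _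

theorem deriv_pa (b : Fin (d + 1) → ℂ) (κ z : ℂ) :
    deriv (pa d b κ) z = dF d b z - d * z ^ (d - 1) := (hasDerivAt_pa b κ z).deriv

theorem norm_FF_sub {b b' : Fin (d + 1) → ℂ} {z : ℂ} (hz : ‖z‖ ≤ 8) :
    ‖FF d b z - FF d b' z‖ ≤ K8 d * ‖b - b'‖ := by
  rw [FF_sub_FF]
  exact pows8 _ hz

theorem norm_dF_sub {b b' : Fin (d + 1) → ℂ} {z : ℂ} (hz : ‖z‖ ≤ 8) :
    ‖dF d b z - dF d b' z‖ ≤ K8 d * ‖b - b'‖ := by
  rw [dF_sub_dF]
  exact dpows8 _ hz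

/-- the critical point is small -/
theorem crit_small (hd : 2 ≤ d) {b : Fin (d + 1) → ℂ} {r : ℝ} (hb : ‖b - ee d c₀‖ ≤ r) {κ : ℂ}
    (hκ : dF d b κ = 0) (hκ1 : ‖κ‖ ≤ 1) : d * ‖κ‖ ^ (d - 1) ≤ K8 d * r := by
  have hK := one_le_K8 d
  have h1 := norm_dF_sub (b := b) (b' := ee d c₀) (z := κ) (by linarith)
  rw [hκ, dF_ee, zero_sub, norm_neg, norm_mul, norm_pow, Complex.norm_natCast] at h1
  refine h1.trans ?_
  gcongr

/-- the perturbation is small -/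
theorem pt_pa (hd : 2 ≤ d) {b : Fin (d + 1) → ℂ} {r : ℝ} (hb : ‖b - ee d c₀‖ ≤ r) {κ : ℂ}
    (hκ : dF d b κ = 0) (hκ1 : ‖κ‖ ≤ 1) : Pt (pa d b κ) (3 * K8 d * r) := by
  have hK := one_le_K8 d
  have hdR : (2 : ℝ) ≤ d := by exact_mod_cast hd
  have hr0 : 0 ≤ r := (norm_nonneg _).trans hb
  have hKr : 0 ≤ K8 d * r := by positivity
  have h1 := crit_small hd hb hκ hκ1
  have h2 : ‖κ‖ ^ d ≤ K8 d * r := by
    have h3 : ‖κ‖ ^ d ≤ ‖κ‖ ^ (d - 1) := pow_le_pow_of_le_one (norm_nonneg _) hκ1 (by omega)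
    have h4 : 0 ≤ ‖κ‖ ^ (d - 1) := by positivity
    nlinarith
  refine ⟨fun z => (hasDerivAt_pa b κ z).differentiableAt, ?_, ?_⟩
  · intro z hz
    rw [mem_ball_zero_iff] at hz
    have h3 := norm_FF_sub (b := b) (b' := ee d c₀) hz.le
    have h4 := norm_FF_sub (b := b) (b' := ee d c₀) (z := κ) (by linarith)
    have e1 : pa d b κ z = (FF d b z - FF d (ee d c₀) z) - (FF d b κ - FF d (ee d c₀) κ) - κ ^ d := by
      rw [FF_ee, FF_ee, f_apply, f_apply]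
      unfold pa
      ring
    calc ‖pa d b κ z‖ ≤ ‖FF d b z - FF d (ee d c₀) z‖ + ‖FF d b κ - FF d (ee d c₀) κ‖ + ‖κ ^ d‖ := by
          rw [e1]
          exact (norm_sub_le _ _).trans (add_le_add_left (norm_sub_le _ _) _)
      _ ≤ K8 d * r + K8 d * r + K8 d * r := by
          refine add_le_add (add_le_add (h3.trans ?_) (h4.trans ?_)) ?_
          · gcongr
          · gcongr
          · rw [norm_pow]
            exact h2
      _ = _ := by ring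
  · intro z hz
    rw [mem_ball_zero_iff] at hz
    have h3 := norm_dF_sub (b := b) (b' := ee d c₀) hz.le
    rw [dF_ee] at h3
    rw [deriv_pa]
    calc _ ≤ K8 d * ‖b - ee d c₀‖ := h3
      _ ≤ K8 d * r := by gcongr
      _ ≤ _ := by nlinarith

/-- growth outside the disc of radius `5 / 2` -/
theorem grow (hd : 2 ≤ d) (hc : ‖c₀‖ ≤ 2) {b : Fin (d + 1) → ℂ}
    (hb : ‖b - ee d c₀‖ * (10 * ((d : ℝ) + 1)) ≤ 1) {y : ℂ} (hy : 5 / 2 < ‖y‖) :
    ‖y‖ + 1 ≤ ‖FF d b y‖ := by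
  have hb0 := norm_nonneg (b - ee d c₀)
  set β := ‖b - ee d c₀‖ with hβ
  have h1 : ‖FF d b y - f d c₀ y‖ ≤ ((d : ℝ) + 1) * β * ‖y‖ ^ d := by
    rw [← FF_ee, FF_sub_FF]
    calc ‖∑ i : Fin (d + 1), (b - ee d c₀) i * y ^ (i : ℕ)‖
        ≤ ∑ i : Fin (d + 1), ‖(b - ee d c₀) i * y ^ (i : ℕ)‖ := norm_sum_le _ _
      _ ≤ ∑ _i : Fin (d + 1), β * ‖y‖ ^ d := by
          refine Finset.sum_le_sum fun i _ => ?_
          rw [norm_mul, norm_pow]
          have hi := i.isLt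
          exact mul_le_mul (norm_le_pi_norm _ i) (pow_le_pow_right₀ (by linarith) (by omega))
            (by positivity) hb0
      _ = _ := by
          rw [Finset.sum_const, Finset.card_univ, Fintype.card_fin, nsmul_eq_mul]
          push_cast
          ring
  have h2 : ‖y‖ ^ d - 2 ≤ ‖f d c₀ y‖ := by
    rw [f_apply, ← norm_pow]
    have := norm_sub_le (y ^ d + c₀) c₀
    rw [add_sub_cancel_right] at this
    linarith
  have h3 : ‖f d c₀ y‖ ≤ ‖FF d b y‖ + ‖FF d b y - f d c₀ y‖ := by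
    calc ‖f d c₀ y‖ = ‖FF d b y - (FF d b y - f d c₀ y)‖ := by congr 1; ring
      _ ≤ _ := norm_sub_le _ _
  have h4 : 5 / 2 * ‖y‖ ≤ ‖y‖ ^ d := by
    calc 5 / 2 * ‖y‖ ≤ ‖y‖ * ‖y‖ := by gcongr
      _ = ‖y‖ ^ 2 := by ring
      _ ≤ ‖y‖ ^ d := pow_le_pow_right₀ (by linarith) hd
  have h5 : 9 / 10 ≤ 1 - ((d : ℝ) + 1) * β := by nlinarith
  have h6 : 5 / 2 * ‖y‖ * (9 / 10) ≤ ‖y‖ ^ d * (1 - ((d : ℝ) + 1) * β) := by gcongr
  nlinarith

/-- the orbit of a periodic point stays in the disc of radius `5 / 2` -/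
theorem per_bd (hd : 2 ≤ d) (hc : ‖c₀‖ ≤ 2) {b : Fin (d + 1) → ℂ}
    (hb : ‖b - ee d c₀‖ * (10 * ((d : ℝ) + 1)) ≤ 1) {x : ℂ} {p : ℕ} (hp : 0 < p)
    (hx : (FF d b)^[p] x = x) (j : ℕ) : ‖(FF d b)^[j] x‖ ≤ 5 / 2 := by
  by_contra hcon
  rw [not_le] at hcon
  have h1 : ∀ m : ℕ, ‖(FF d b)^[j] x‖ + m ≤ ‖(FF d b)^[j + m] x‖ := by
    intro m
    induction m with
    | zero => simp
    | succ m ih =>
      have h2 : 5 / 2 < ‖(FF d b)^[j + m] x‖ := by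
        have : (0 : ℝ) ≤ m := Nat.cast_nonneg m
        linarith
      have h3 := grow hd hc hb h2
      rw [← add_assoc, Function.iterate_succ_apply']
      push_cast
      linarith
  have h2 := h1 p
  have h3 : (FF d b)^[j + p] x = (FF d b)^[j] x := by
    rw [Function.iterate_add_apply, hx]
  rw [h3] at h2
  have : (0 : ℝ) < p := Nat.cast_pos.mpr hp
  linarith

end Pool.Agent.Y298.EX
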