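import Mathlib
import Pool.Agent.Y298.EX.Low

/-!
# The arithmetic of the radii
-/

set_option autoImplicit false

open Set Filter Metric MeasureTheory Topology

namespace Pool.Agent.Y298.EX

theorem arith {d : ℕ} (hd : 2 ≤ d) {ε A K Kq Ca : ℝ} (hε : 0 < ε) (hA : 1 ≤ A) (hK : 1 ≤ K)
    (hKq : 1 ≤ Kq) (hCa : 1 ≤ Ca) : ∀ᶠ r : ℝ in 𝓝[>] 0, ∀ F E ρ η σ ϱ : ℝ,
      F = 1 / ((d : ℝ) - 1) → E = (d : ℝ) / ((d : ℝ) - 1) → ρ = r ^ (F + ε / 2) →
      η = K * r ^ (E + ε) → σ = (A * r) ^ F → ϱ = Kq * (σ ^ (d - 2) * ρ ^ 2) + η →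
      0 < σ ∧ σ ≤ 1 ∧ A * r ≤ σ ^ (d - 1) ∧ 0 < ρ ∧ ρ ≤ σ ∧ 0 < η ∧ η ≤ A * r / 16 ∧
      ϱ ≤ A * r / 2 ∧ σ ^ (d - 1) = A * r ∧ ∀ Gb L : ℝ, 1 ≤ Gb → 1 ≤ L →
        Gb * L ≤ (A * r) ^ (-(1 + ε / 4)) →
        (2 * Gb * ϱ + 16 * Ca * Gb * η + η) * L < ρ ∧
        (2 * Gb * ϱ + 16 * Ca * Gb * η + η) * L ≤ 1 / 2 := by
  have hdR : (2 : ℝ) ≤ d := by exact_mod_cast hd
  have hd1 : 0 < (d : ℝ) - 1 := by linarith
  obtain ⟨F, hF⟩ : ∃ F : ℝ, F = 1 / ((d : ℝ) - 1) := ⟨_, rfl⟩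
  obtain ⟨E, hE⟩ : ∃ E : ℝ, E = (d : ℝ) / ((d : ℝ) - 1) := ⟨_, rfl⟩
  have hF0 : 0 < F := by rw [hF]; positivity
  have hFE : E = 1 + F := by
    rw [hE, hF]
    field_simp
    ring
  have hFd : F * ((d : ℝ) - 1) = 1 := by
    rw [hF]
    field_simp
  have hF1 : F ≤ 1 := by
    rw [hF, div_le_one hd1]
    linarith
  have hA0 : 0 < A := by linarith
  set C₅ : ℝ := 2 * Kq * A + (16 * Ca + 3) * K with hC₅
  have hC₅0 : 0 < C₅ := by positivity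
  have hmem0 : ∀ᶠ r : ℝ in 𝓝[>] 0, 0 < r := self_mem_nhdsWithin
  have hlt1 : ∀ᶠ r : ℝ in 𝓝[>] 0, r < 1 :=
    mem_nhdsWithin_of_mem_nhds (gt_mem_nhds (by norm_num : (0 : ℝ) < 1))
  filter_upwards [hmem0, hlt1, ev_small (C := A) one_pos one_pos,
    ev_small (C := 32 * (K + Kq * A)) (a := F + ε) (δ := 1) (by positivity) one_pos,
    ev_small (C := C₅) (a := ε / 4) (δ := 1) (by positivity) one_pos,
    ev_small (C := 2) (a := F + ε / 2) (δ := 1) (by positivity) one_pos] with r hr0 hr1 hr2 hr3 hr4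
      hr5
  intro F' E' ρ η σ ϱ hF' hE' hρ hη hσ hϱ
  rw [← hF] at hF'
  rw [← hE] at hE'
  subst hF' hE'
  rw [Real.rpow_one] at hr2
  have hAr0 : 0 < A * r := by positivity
  have hσ0 : 0 < σ := by rw [hσ]; exact Real.rpow_pos_of_pos hAr0 _
  have hσ1 : σ ≤ 1 := by
    rw [hσ]
    exact Real.rpow_le_one hAr0.le hr2.le hF0.le
  have hρ0 : 0 < ρ := by rw [hρ]; exact Real.rpow_pos_of_pos hr0 _
  have hη0 : 0 < η := by
    rw [hη]
    have := Real.rpow_pos_of_pos hr0 (E' + ε)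
    positivity
  have hcast : ((d - 1 : ℕ) : ℝ) = (d : ℝ) - 1 := by
    rw [Nat.cast_sub (by omega), Nat.cast_one]
  have hσd : σ ^ (d - 1) = A * r := by
    rw [hσ, ← Real.rpow_natCast, ← Real.rpow_mul hAr0.le, hcast, hFd, Real.rpow_one]
  have hρσ : ρ ≤ σ := by
    rw [hρ, hσ]
    calc r ^ (F' + ε / 2) ≤ r ^ F' := Real.rpow_le_rpow_of_exponent_ge hr0 hr1.le (by linarith)
      _ ≤ (A * r) ^ F' := Real.rpow_le_rpow hr0.le (by nlinarith) hF0.le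
  -- the powers of `σ`
  have hcast2 : ((d - 2 : ℕ) : ℝ) = (d : ℝ) - 2 := by
    rw [Nat.cast_sub (by omega)]
    norm_num
  have hFd2 : F' * ((d : ℝ) - 2) = 1 - F' := by linarith
  have hσ2 : σ ^ (d - 2) ≤ A * r ^ (1 - F') := by
    rw [hσ, ← Real.rpow_natCast, ← Real.rpow_mul hAr0.le, hcast2, hFd2,
      Real.mul_rpow hA0.le hr0.le]
    have h1 : A ^ (1 - F') ≤ A := by
      calc A ^ (1 - F') ≤ A ^ (1 : ℝ) := Real.rpow_le_rpow_of_exponent_le hA (by linarith)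
        _ = A := Real.rpow_one _
    have h2 := Real.rpow_pos_of_pos hr0 (1 - F')
    gcongr
  have hρ2 : ρ ^ 2 = r ^ (2 * F' + ε) := by
    rw [hρ, ← Real.rpow_natCast, ← Real.rpow_mul hr0.le]
    congr 1
    push_cast
    ring
  have hsr : σ ^ (d - 2) * ρ ^ 2 ≤ A * r ^ (E' + ε) := by
    rw [hρ2]
    have h1 : A * r ^ (1 - F') * r ^ (2 * F' + ε) = A * r ^ (E' + ε) := by
      rw [mul_assoc, ← Real.rpow_add hr0]
      congr 2
      rw [hFE]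
      ring
    rw [← h1]
    have h2 := Real.rpow_pos_of_pos hr0 (2 * F' + ε)
    gcongr
  have hrE : r ^ (E' + ε) = r * r ^ (F' + ε) := by
    have h1 : E' + ε = 1 + (F' + ε) := by rw [hFE]; ring
    rw [h1, Real.rpow_add hr0, Real.rpow_one]
  have hrF0 := Real.rpow_pos_of_pos hr0 (F' + ε)
  have hη16 : η ≤ A * r / 16 := by
    rw [hη, hrE]
    have h1 : 16 * K * r ^ (F' + ε) ≤ 1 := by
      have h2 : 16 * K ≤ 32 * (K + Kq * A) := by nlinarith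
      have h3 : 16 * K * r ^ (F' + ε) ≤ 32 * (K + Kq * A) * r ^ (F' + ε) := by gcongr
      linarith
    have h4 : K * (r * r ^ (F' + ε)) * 16 = r * (16 * K * r ^ (F' + ε)) := by ring
    have h5 : r * (16 * K * r ^ (F' + ε)) ≤ r * 1 := by gcongr
    have h6 : r ≤ A * r := by nlinarith
    linarith
  have hϱ2 : ϱ ≤ A * r / 2 := by
    have h1 : ϱ ≤ (K + Kq * A) * r ^ (E' + ε) := by
      rw [hϱ, hη]
      have h2 : Kq * (σ ^ (d - 2) * ρ ^ 2) ≤ Kq * (A * r ^ (E' + ε)) := by gcongr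
      linarith
    have h2 : (K + Kq * A) * r ^ (E' + ε) * 32 = r * (32 * (K + Kq * A) * r ^ (F' + ε)) := by
      rw [hrE]
      ring
    have h3 : r * (32 * (K + Kq * A) * r ^ (F' + ε)) ≤ r * 1 := by gcongr
    have h6 : r ≤ A * r := by nlinarith
    linarith
  refine ⟨hσ0, hσ1, hσd.ge, hρ0, hρσ, hη0, hη16, hϱ2, hσd, ?_⟩
  intro Gb L hGb hL hGL
  have hlt : (2 * Gb * ϱ + 16 * Ca * Gb * η + η) * L < ρ := by
    have h1 : (2 * Gb * ϱ + 16 * Ca * Gb * η + η) * L ≤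
        (Gb * L) * (C₅ * r ^ (E' + ε)) := by
      have h2 : ϱ ≤ (K + Kq * A) * r ^ (E' + ε) := by
        rw [hϱ, hη]
        have h2 : Kq * (σ ^ (d - 2) * ρ ^ 2) ≤ Kq * (A * r ^ (E' + ε)) := by gcongr
        linarith
      have h3 : η ≤ Gb * η := by nlinarith
      have h4 : 2 * Gb * ϱ + 16 * Ca * Gb * η + η ≤ Gb * (C₅ * r ^ (E' + ε)) := by
        have h5 : 2 * Gb * ϱ ≤ 2 * Gb * ((K + Kq * A) * r ^ (E' + ε)) := by gcongr
        calc 2 * Gb * ϱ + 16 * Ca * Gb * η + η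
            ≤ 2 * Gb * ((K + Kq * A) * r ^ (E' + ε)) + 16 * Ca * Gb * η + Gb * η := by linarith
          _ = _ := by
              rw [hη, hC₅]
              ring
      calc _ ≤ Gb * (C₅ * r ^ (E' + ε)) * L := by gcongr
        _ = _ := by ring
    have h2 : (A * r) ^ (-(1 + ε / 4)) ≤ r ^ (-(1 + ε / 4)) := by
      apply Real.rpow_le_rpow_of_nonpos hr0 (by nlinarith) (by linarith)
    have h3 : 0 < r ^ (E' + ε) := Real.rpow_pos_of_pos hr0 _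
    calc (2 * Gb * ϱ + 16 * Ca * Gb * η + η) * L ≤ (Gb * L) * (C₅ * r ^ (E' + ε)) := h1
      _ ≤ r ^ (-(1 + ε / 4)) * (C₅ * r ^ (E' + ε)) := by
          gcongr
          exact hGL.trans h2
      _ = (C₅ * r ^ (ε / 4)) * ρ := by
          rw [hρ]
          have e1 : r ^ (-(1 + ε / 4)) * (C₅ * r ^ (E' + ε)) =
              C₅ * (r ^ (-(1 + ε / 4)) * r ^ (E' + ε)) := by ring
          rw [e1, ← Real.rpow_add hr0, mul_assoc, ← Real.rpow_add hr0]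
          congr 2
          rw [hFE]
          ring
      _ < 1 * ρ := by gcongr
      _ = ρ := one_mul _
  refine ⟨hlt, hlt.le.trans ?_⟩
  rw [hρ]
  linarith

end Pool.Agent.Y298.EX
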