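import Mathlib
import Pool.Agent.Y298.EX.Ari

/-!
# Periodic critical points in all directions: the assembly
-/

set_option autoImplicit false

open Set Filter Metric MeasureTheory Topology

namespace Pool.Agent.Y298.EX

open Pool.Agent.TH279.MD Pool.Agent.Y298.SH Pool.Agent.Y298.SH.CD
open Pool.Agent.Y298.CA (Lyap S_LYA)
open Pool.Agent.Y272.GA (FF ee dF FF_ee dF_ee FF_sub_FF dF_sub_dF hasDerivAt_FF differentiable_FF
  deriv_FF sum_ee f_apply)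

theorem FF_single {d : ℕ} (b : Fin (d + 1) → ℂ) (t z : ℂ) :
    FF d (b + Pi.single 0 t) z = FF d b z + t := by
  have h1 := FF_sub_FF (b + Pi.single 0 t) b z
  rw [add_sub_cancel_left] at h1
  have h2 : ∑ i : Fin (d + 1), (Pi.single 0 t : Fin (d + 1) → ℂ) i * z ^ (i : ℕ) = t := by
    have h3 := sum_ee d t fun i => z ^ (i : ℕ)
    unfold ee at h3
    rw [h3]
    simp
  rw [h2] at h1
  linear_combination h1

theorem dF_single {d : ℕ} (b : Fin (d + 1) → ℂ) (t z : ℂ) :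
    dF d (b + Pi.single 0 t) z = dF d b z := by
  unfold dF
  congr 1
  refine Finset.sum_congr rfl fun i _ => ?_
  by_cases hi : i = 0
  · subst hi
    simp
  · simp [Pi.single_eq_of_ne hi]

theorem norm_single_sub {d : ℕ} (b : Fin (d + 1) → ℂ) (c₀ t : ℂ) :
    ‖b + Pi.single 0 t - ee d c₀‖ ≤ ‖b - ee d c₀‖ + ‖t‖ := by
  have h := norm_add_le (b - ee d c₀) (Pi.single 0 t : Fin (d + 1) → ℂ)
  rw [Pi.norm_single, sub_add_eq_add_sub] at h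
  exact h

theorem low (hPA : GA.S_PA) (hLYA : S_LYA) (hPSCH : S_PSCH) (hPATT : S_PATT) (hSEL : S_SEL) :
    S_LOW := by
  intro d χ c₀ hd h ε hε
  have hdR : (2 : ℝ) ≤ d := by exact_mod_cast hd
  have hd1 : 0 < (d : ℝ) - 1 := by linarith
  obtain ⟨⟨C₁, lam, hc⟩, -⟩ := hLYA d χ c₀ hd h
  have hc2 : ‖c₀‖ ≤ 2 := by
    have := hc.bd 0
    rwa [zz_zero] at this
  obtain ⟨θ, hθ, hsel⟩ := hSEL d χ c₀ C₁ lam hd h hc (ε / 4) (by positivity)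
  obtain ⟨B, Ca, hPC⟩ := hPA d C₁ lam θ hd hc.C1 hc.lam1 hθ
  have hCa1 := hPC.Ca1
  have hB0 : 0 < B := by linarith [hPC.CaB]
  obtain ⟨CS, e, s₁, J, hCS, he0, he4, hs₁, hs₁', hps⟩ :=
    hPSCH d C₁ lam θ B Ca hd hc.C1 hc.lam1 hθ hPC c₀ hc
  obtain ⟨s₂, hs₂, hs₂', hsel⟩ := hsel B CS J hB0 hCS
  have hK := one_le_K8 d
  obtain ⟨A, hA⟩ : ∃ A : ℝ, A = 3 * K8 d / e := ⟨_, rfl⟩
  have hAe : e * A = 3 * K8 d := by
    rw [hA]
    field_simp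
  have hA12 : 12 ≤ A := by
    by_contra hcon
    rw [not_le] at hcon
    nlinarith
  have hA0 : 0 < A := by linarith
  obtain ⟨C, hC⟩ : ∃ C : ℝ, C = A + 2 * K8 d := ⟨_, rfl⟩
  have hC1 : 1 ≤ C := by linarith
  have hq1 : (1 : ℝ) ≤ (d : ℝ) ^ 2 * 2 ^ d + 1 := by
    have : (0 : ℝ) ≤ (d : ℝ) ^ 2 * 2 ^ d := by positivity
    linarith
  have hmem0 : ∀ᶠ r : ℝ in 𝓝[>] 0, 0 < r := self_mem_nhdsWithin
  have hlt1 : ∀ᶠ r : ℝ in 𝓝[>] 0, r < 1 :=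
    mem_nhdsWithin_of_mem_nhds (gt_mem_nhds (by norm_num : (0 : ℝ) < 1))
  obtain ⟨r₀, hr₀, H⟩ := ev_exists (hmem0.and (hlt1.and ((arith hd hε (A := A) (K := K8 d)
    (Kq := (d : ℝ) ^ 2 * 2 ^ d + 1) (Ca := Ca) (by linarith) hK hq1 hCa1).and
    ((ev_small (C := A) one_pos hs₁).and ((ev_small (C := A) one_pos hs₂).and
    ((ev_small (C := K8 d) one_pos (pow_pos hs₁ (d - 1))).and
      (ev_small (C := (1 + C) * (10 * ((d : ℝ) + 1))) one_pos one_pos)))))))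
  refine ⟨C, r₀, hC1, hr₀, ?_⟩
  intro r hr hrr b hb κ hκ hκ1
  obtain ⟨-, hr1, hari, hrs₁, hrs₂, hrs₃, hrs₄⟩ := H r hr hrr
  rw [Real.rpow_one] at hrs₁ hrs₂ hrs₃ hrs₄
  obtain ⟨F, hF⟩ : ∃ F : ℝ, F = 1 / ((d : ℝ) - 1) := ⟨_, rfl⟩
  obtain ⟨E, hE⟩ : ∃ E : ℝ, E = (d : ℝ) / ((d : ℝ) - 1) := ⟨_, rfl⟩
  obtain ⟨ρ, hρ⟩ : ∃ ρ : ℝ, ρ = r ^ (F + ε / 2) := ⟨_, rfl⟩
  obtain ⟨η, hη⟩ : ∃ η : ℝ, η = K8 d * r ^ (E + ε) := ⟨_, rfl⟩
  obtain ⟨σ, hσ⟩ : ∃ σ : ℝ, σ = (A * r) ^ F := ⟨_, rfl⟩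
  obtain ⟨ϱ, hϱ⟩ : ∃ ϱ : ℝ, ϱ = ((d : ℝ) ^ 2 * 2 ^ d + 1) * (σ ^ (d - 2) * ρ ^ 2) + η := ⟨_, rfl⟩
  obtain ⟨hσ0, hσ1, hσd, hρ0, hρσ, hη0, hη16, hϱ2, hσd', hfin⟩ := hari F E ρ η σ ϱ hF hE hρ hη hσ hϱ
  obtain ⟨s, hs⟩ : ∃ s : ℝ, s = A * r := ⟨_, rfl⟩
  rw [← hs] at hσd hη16 hϱ2 hσd' hfin hrs₁ hrs₂
  have hs0 : 0 < s := by rw [hs]; positivity
  have hs1 : s ≤ 1 := hrs₁.le.trans hs₁'
  obtain ⟨k, m, Gb, hJ, hpass, hG, hG1, hGL, hfur, hCSk⟩ := hsel s hs0 hrs₂.le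
  -- the perturbation
  have hpt := pt_pa hd hb hκ hκ1
  have hpt1 : Pt (pa d b κ) (e * s) := by
    have : e * s = 3 * K8 d * r := by rw [hs, ← mul_assoc, hAe]
    rw [this]
    exact hpt
  have hpt2 : Pt (pa d b κ) (s / 4) := by
    have : e * s ≤ s / 4 := by nlinarith
    exact ⟨hpt1.hol, fun z hz => (hpt1.le z hz).trans this, fun z hz => (hpt1.dle z hz).trans this⟩
  -- the critical point
  have hcs := crit_small hd hb hκ hκ1
  have hκp : ‖κ‖ ^ (d - 1) ≤ K8 d * r := by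
    have h4 : 0 ≤ ‖κ‖ ^ (d - 1) := by positivity
    nlinarith
  have hκs : ‖κ‖ ≤ s₁ := by
    by_contra hcon
    rw [not_le] at hcon
    have h1 : s₁ ^ (d - 1) ≤ ‖κ‖ ^ (d - 1) := pow_le_pow_left₀ hs₁.le hcon.le _
    linarith
  have hκσ : ‖κ‖ ≤ σ := by
    by_contra hcon
    rw [not_le] at hcon
    have h1 : σ ^ (d - 1) < ‖κ‖ ^ (d - 1) := pow_lt_pow_left₀ hcon hσ0.le (by omega)
    rw [hσd'] at h1
    have h2 : K8 d * r ≤ s := by
      rw [hs]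
      have : K8 d ≤ A := by nlinarith
      gcongr
    linarith
  have hdκ : d * κ ^ (d - 1) + deriv (pa d b κ) κ = 0 := by
    rw [deriv_pa, hκ]
    ring
  have hpκ : κ ^ d + pa d b κ κ = 0 := by
    unfold pa
    ring
  obtain ⟨w, hw, n, hn, hgn⟩ := hps (pa d b κ) κ s k m hs0 hrs₁.le hJ hpass hfur hCSk hpt1 hκs
  have hw' : ‖w - c₀‖ < s / 4 := by rwa [mem_ball, dist_eq_norm] at hw
  -- the translation
  obtain ⟨t₁, ht₁⟩ : ∃ t : ℂ, t = w - FF d b κ := ⟨_, rfl⟩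
  have hv : ‖FF d b κ - c₀‖ ≤ 2 * K8 d * r := by
    have h1 := norm_FF_sub (b := b) (b' := ee d c₀) (z := κ) (by linarith)
    rw [FF_ee, f_apply] at h1
    have h2 : ‖κ‖ ^ d ≤ K8 d * r := by
      have h3 : ‖κ‖ ^ d ≤ ‖κ‖ ^ (d - 1) := pow_le_pow_of_le_one (norm_nonneg _) hκ1 (by omega)
      linarith
    calc ‖FF d b κ - c₀‖ = ‖(FF d b κ - (κ ^ d + c₀)) + κ ^ d‖ := by congr 1; ring
      _ ≤ ‖FF d b κ - (κ ^ d + c₀)‖ + ‖κ ^ d‖ := norm_add_le _ _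
      _ ≤ K8 d * r + K8 d * r := by
          refine add_le_add (h1.trans ?_) ?_
          · gcongr
          · rw [norm_pow]
            exact h2
      _ = _ := by ring
  have ht₁C : ‖t₁‖ ≤ C * r := by
    calc ‖t₁‖ = ‖(w - c₀) - (FF d b κ - c₀)‖ := by rw [ht₁]; congr 1; ring
      _ ≤ ‖w - c₀‖ + ‖FF d b κ - c₀‖ := norm_sub_le _ _
      _ ≤ A * r + 2 * K8 d * r := by
          refine add_le_add ?_ hv
          rw [← hs]
          linarith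
      _ = C * r := by rw [hC]; ring
  have hmap : ∀ z, mp d (pa d b κ) w z = FF d (b + Pi.single 0 t₁) z := by
    intro z
    rw [FF_single, ht₁]
    unfold mp pa
    ring
  have hmap' : mp d (pa d b κ) w = FF d (b + Pi.single 0 t₁) := funext hmap
  have hbt : ‖b + Pi.single 0 t₁ - ee d c₀‖ * (10 * ((d : ℝ) + 1)) ≤ 1 := by
    have h1 := norm_single_sub b c₀ t₁
    calc ‖b + Pi.single 0 t₁ - ee d c₀‖ * (10 * ((d : ℝ) + 1))
        ≤ (r + C * r) * (10 * ((d : ℝ) + 1)) := by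
          gcongr
          linarith
      _ = (1 + C) * (10 * ((d : ℝ) + 1)) * r := by ring
      _ ≤ 1 := hrs₄.le
  -- the orbit of `w` is periodic, so bounded
  have hbdw : ∀ j, ‖gg d (pa d b κ) j w‖ ≤ 5 / 2 := by
    have h1 : (FF d (b + Pi.single 0 t₁))^[n + 1] w = w := by
      rw [Function.iterate_succ_apply', ← hmap']
      have h2 : (mp d (pa d b κ) w)^[n] w = κ := hgn
      rw [h2]
      unfold mp
      linear_combination hpκ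
    intro j
    have h2 := per_bd hd hc2 hbt (Nat.succ_pos n) h1 j
    unfold gg
    rw [hmap']
    exact h2
  -- the trap
  have hLL1 : 1 ≤ LL d := by
    unfold LL
    have : (0 : ℝ) ≤ d * 3 ^ (d - 1) := by positivity
    linarith
  have hLm1 : 1 ≤ LL d ^ (m + 1) := one_le_pow₀ hLL1
  obtain ⟨hf1, hf2⟩ := hfin Gb (LL d ^ (m + 1)) hG1 hLm1 hGL
  refine ⟨t₁, n, ht₁C, ?_⟩
  intro b' hb' z hz
  rw [← hE] at hb'
  rw [← hF, ← hρ] at hz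
  rw [← hF, ← hρ]
  have hbb : ∀ y ∈ ball (0 : ℂ) 8, ‖FF d b' y - y ^ d - (w + pa d b κ y)‖ ≤ η := by
    intro y hy
    rw [mem_ball_zero_iff] at hy
    have h1 := norm_FF_sub (b := b') (b' := b + Pi.single 0 t₁) hy.le
    have e1 : FF d b' y - y ^ d - (w + pa d b κ y) = FF d b' y - FF d (b + Pi.single 0 t₁) y := by
      rw [← hmap]
      unfold mp
      ring
    rw [e1, hη]
    refine h1.trans ?_
    gcongr
  have hbb' : ∀ y ∈ ball (0 : ℂ) 8,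
      ‖deriv (fun y => FF d b' y - y ^ d) y - deriv (pa d b κ) y‖ ≤ η := by
    intro y hy
    rw [mem_ball_zero_iff] at hy
    have h1 := norm_dF_sub (b := b') (b' := b + Pi.single 0 t₁) hy.le
    have h2 : deriv (fun y => FF d b' y - y ^ d) y = dF d b' y - d * y ^ (d - 1) :=
      ((hasDerivAt_FF b' y).fun_sub (hasDerivAt_pow d y)).deriv
    have e1 : deriv (fun y => FF d b' y - y ^ d) y - deriv (pa d b κ) y =
        dF d b' y - dF d (b + Pi.single 0 t₁) y := by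
      rw [h2, deriv_pa, dF_single]
      ring
    rw [e1, hη]
    refine h1.trans ?_
    gcongr
  have hmain := hPATT d C₁ lam θ B Ca hd hPC c₀ hc s Gb k (m + 1) hs0 hs1 hpass hG hG1 (pa d b κ) κ
    w n σ ρ η ϱ hpt2 hw hdκ hpκ (by omega) hgn hbdw hσ0 hσ1 hσd hκσ hρ0 hρσ hη0 hη16 hϱ hϱ2 hf2 hf1
    (fun y => FF d b' y - y ^ d)
    (fun y => ((hasDerivAt_FF b' y).fun_sub (hasDerivAt_pow d y)).differentiableAt) hbb hbb' z hz
  have e2 : (fun z => z ^ d + (FF d b' z - z ^ d)) = FF d b' := by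
    funext z
    ring
  simp only [e2] at hmain
  exact hmain

end Pool.Agent.Y298.EX
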