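import Mathlib

/-!
# Traps and sinks, Fubini: statements
-/

set_option autoImplicit false

open Set Filter Metric MeasureTheory Topology

namespace Pool.Agent.Y298.EX

/-- A map which maps a closed disc into its interior has a sink there, which attracts the disc. -/
def S_SINK : Prop := ∀ (g : ℂ → ℂ) (κ : ℂ) (ρ : ℝ) (n : ℕ), Differentiable ℂ g → 0 < ρ →
  (∀ z ∈ closedBall κ ρ, g^[n + 1] z ∈ ball κ ρ) →
  ∃ x ∈ ball κ ρ, g^[n + 1] x = x ∧ ‖deriv (g^[n + 1]) x‖ < 1 ∧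
    ∀ z ∈ closedBall κ ρ, Tendsto (fun k : ℕ => g^[(n + 1) * k] z) atTop (𝓝 x)

/-- Lower bound of the volume by the areas of the slices. -/
def S_FUB : Prop := ∀ (d : ℕ) (S : Set (Fin (d + 1) → ℂ)) (δ α : ℝ), 0 < δ → 0 ≤ α →
  (∀ x : Fin d → ℂ, ‖x‖ ≤ δ → ENNReal.ofReal α ≤
    volume {t : ℂ | (Fin.cons t x : Fin (d + 1) → ℂ) ∈ S}) →
  ENNReal.ofReal α * ENNReal.ofReal ((Real.pi * δ ^ 2) ^ d) ≤ volume S

end Pool.Agent.Y298.EX
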