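import Mathlib
import Pool.Agent.Y298.EX.LowMain
import Pool.Agent.Y298.EX.Stm2
import Pool.Agent.Y272.GA.Brg

/-!
# Lower bounds of the volume and of the inradius
-/

set_option autoImplicit false

open Set Filter Metric MeasureTheory Topology

namespace Pool.Agent.Y298.EX

open Pool.Agent.TH279.MD Pool.Agent.Y298.SH Pool.Agent.Y298.SH.CD
open Pool.Agent.Y298.CA (Lyap S_LYA)
open Pool.Agent.Y272.GA (FF ee dF FF_ee dF_ee FF_sub_FF dF_sub_dF hasDerivAt_FF differentiable_FF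
  deriv_FF sum_ee f_apply pol pol_eval pol_derivative_eval pol_natDegree crit_le_one NE ee_ne
  ee_zero)

/-- One sink attracts all critical points. -/
def OS (d : ℕ) : Set (Fin (d + 1) → ℂ) := {b | ∃ (n : ℕ) (x : ℂ), 0 < n ∧ (FF d b)^[n] x = x ∧
  ‖deriv ((FF d b)^[n]) x‖ < 1 ∧ ∀ ω : ℂ, dF d b ω = 0 →
    Tendsto (fun k : ℕ => (FF d b)^[n * k] ω) atTop (𝓝 x)}

/-- No critical point escapes. -/
def CN (d : ℕ) : Set (Fin (d + 1) → ℂ) := {b | ∀ ω : ℂ, dF d b ω = 0 →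
  ¬ Tendsto (fun n => ‖(FF d b)^[n] ω‖) atTop atTop}

variable {d : ℕ} {c₀ : ℂ}

theorem OS_sub_CN : OS d ⊆ CN d := by
  rintro b ⟨n, x, hn, -, -, h⟩ ω hω hcon
  have h1 := (h ω hω).norm
  have h2 : Tendsto (fun k : ℕ => n * k) atTop atTop := tendsto_id.const_mul_atTop' hn
  have h3 := hcon.comp h2
  exact not_tendsto_nhds_of_tendsto_atTop h3 _ h1

/-- existence of critical points -/
theorem exists_crit (hd : 2 ≤ d) {b : Fin (d + 1) → ℂ} {δ : ℝ} (hb : ‖b - ee d c₀‖ ≤ δ)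
    (hδ : K8 d * δ < 1) : ∃ κ : ℂ, dF d b κ = 0 := by
  have hdR : (2 : ℝ) ≤ d := by exact_mod_cast hd
  have hK := one_le_K8 d
  by_contra hcon
  push Not at hcon
  have h1 : (pol d b).derivative.degree = 0 := by
    by_contra h2
    obtain ⟨z, hz⟩ := IsAlgClosed.exists_root _ h2
    rw [Polynomial.IsRoot.def, pol_derivative_eval] at hz
    exact hcon z hz
  have h2 := Polynomial.eq_C_of_degree_eq_zero h1
  have h3 : dF d b 1 = dF d b 0 := by
    rw [← pol_derivative_eval, ← pol_derivative_eval, h2]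
    simp
  have h4 := norm_dF_sub (b := b) (b' := ee d c₀) (z := 1) (by rw [norm_one]; norm_num)
  have h5 := norm_dF_sub (b := b) (b' := ee d c₀) (z := 0) (by rw [norm_zero]; norm_num)
  rw [dF_ee, one_pow, mul_one] at h4
  rw [dF_ee, zero_pow (by omega), mul_zero, sub_zero] at h5
  have h6 : K8 d * ‖b - ee d c₀‖ ≤ K8 d * δ := by gcongr
  have h7 : (d : ℝ) ≤ ‖dF d b 1 - d‖ + ‖dF d b 1‖ := by
    calc (d : ℝ) = ‖(d : ℂ)‖ := (Complex.norm_natCast d).symm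
      _ = ‖dF d b 1 - (dF d b 1 - d)‖ := by congr 1; ring
      _ ≤ ‖dF d b 1‖ + ‖dF d b 1 - d‖ := norm_sub_le _ _
      _ = _ := add_comm _ _
  rw [h3] at h7
  rw [h3] at h4
  linarith

/-- the critical points are in a small disc -/
theorem crit_in (hd : 2 ≤ d) {b : Fin (d + 1) → ℂ} {δ ρ : ℝ} (hb : ∀ i, i ≠ 0 → ‖b i‖ ≤ δ)
    (hρ : 0 ≤ ρ) (hδ0 : 0 ≤ δ) (hδ : K8 d * δ ≤ ρ ^ (d - 1)) (hδ1 : δ * ((d : ℝ) + 1) ^ 2 ≤ 1) {ω : ℂ}
    (hω : dF d b ω = 0) : ‖ω‖ ≤ ρ := by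
  have hdR : (2 : ℝ) ≤ d := by exact_mod_cast hd
  have h1 : ‖b - ee d (b 0)‖ ≤ δ := by
    rw [pi_norm_le_iff_of_nonneg hδ0]
    intro i
    rw [Pi.sub_apply]
    by_cases hi : i = 0
    · rw [hi, ee_zero, sub_self, norm_zero]
      exact hδ0
    · rw [ee_ne d _ hi, sub_zero]
      exact hb i hi
  have h2 : ‖ω‖ < 1 := by
    by_contra hcon
    refine crit_le_one (c₀ := b 0) hd ?_ (not_lt.mp hcon) hω
    refine le_trans ?_ hδ1
    gcongr
  have h3 := crit_small hd h1 hω h2.le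
  by_contra hcon
  rw [not_le] at hcon
  have h4 : ρ ^ (d - 1) < ‖ω‖ ^ (d - 1) := pow_lt_pow_left₀ hcon hρ (by omega)
  have h5 : 0 ≤ ((d : ℝ) - 1) * ‖ω‖ ^ (d - 1) := mul_nonneg (by linarith) (by positivity)
  linarith

/-- a trap which contains all critical points -/
theorem os_of_trap (hSINK : S_SINK) {b : Fin (d + 1) → ℂ} {κ : ℂ} {ρ : ℝ} {n : ℕ} (hρ : 0 < ρ)
    (htrap : ∀ z ∈ closedBall κ ρ, (FF d b)^[n + 1] z ∈ ball κ ρ)
    (hcr : ∀ ω, dF d b ω = 0 → ω ∈ closedBall κ ρ) : b ∈ OS d := by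
  obtain ⟨x, -, h1, h2, h3⟩ := hSINK (FF d b) κ ρ n (differentiable_FF b) hρ htrap
  exact ⟨n + 1, x, Nat.succ_pos n, h1, h2, fun ω hω => h3 ω (hcr ω hω)⟩

/-- **The lower bounds.** -/
theorem low_fin (hLOW : S_LOW) (hSINK : S_SINK) (hFUB : S_FUB) (hd : 2 ≤ d) {χ : ℝ}
    (h : Lyap d χ c₀) {ε : ℝ} (hε : 0 < ε) : ∀ᶠ r : ℝ in 𝓝[>] 0,
      ENNReal.ofReal (r ^ (2 * ((d : ℝ) + 1) + 2 / ((d : ℝ) - 1) + ε)) ≤
        volume (OS d ∩ closedBall (ee d c₀) r) ∧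
      ∃ b : Fin (d + 1) → ℂ, ball b (r ^ ((d : ℝ) / ((d : ℝ) - 1) + ε)) ⊆
        OS d ∩ closedBall (ee d c₀) r := by
  have hdR : (2 : ℝ) ≤ d := by exact_mod_cast hd
  have hd1 : 0 < (d : ℝ) - 1 := by linarith
  have hK := one_le_K8 d
  obtain ⟨F, hF⟩ : ∃ F : ℝ, F = 1 / ((d : ℝ) - 1) := ⟨_, rfl⟩
  obtain ⟨E, hE⟩ : ∃ E : ℝ, E = (d : ℝ) / ((d : ℝ) - 1) := ⟨_, rfl⟩
  have hF0 : 0 < F := by rw [hF]; positivity
  have hFE : E = 1 + F := by
    rw [hE, hF]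
    field_simp
    ring
  have hFd : F * ((d : ℝ) - 1) = 1 := by
    rw [hF]
    field_simp
  set M : ℝ := 2 * (1 + d * ((d : ℝ) - 1)) with hM
  have hM0 : 0 < M := by positivity
  set ε₁ : ℝ := min (ε / (2 * M)) (min (ε / 2) (F / d)) with hε₁
  have hε₁0 : 0 < ε₁ := lt_min (by positivity) (lt_min (by positivity) (by positivity))
  have hε₁M : M * ε₁ ≤ ε / 2 := by
    have h1 : ε₁ ≤ ε / (2 * M) := min_le_left _ _
    calc M * ε₁ ≤ M * (ε / (2 * M)) := by gcongr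
      _ = ε / 2 := by field_simp
  have hε₁2 : ε₁ ≤ ε / 2 := (min_le_right _ _).trans (min_le_left _ _)
  have hε₁F : ε₁ * d ≤ F := by
    have h1 : ε₁ ≤ F / d := (min_le_right _ _).trans (min_le_right _ _)
    rwa [le_div_iff₀ (by linarith)] at h1
  obtain ⟨C, r₀, hC1, hr₀, H⟩ := hLOW d χ c₀ hd h ε₁ hε₁0
  have hC0 : 0 < C := by linarith
  set G : ℝ := C + 1 with hG
  have hG1 : 1 ≤ G := by rw [hG]; linarith
  have hG0 : 0 < G := by linarith
  have hcast : ((d - 1 : ℕ) : ℝ) = (d : ℝ) - 1 := by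
    rw [Nat.cast_sub (by omega), Nat.cast_one]
  have hmem0 : ∀ᶠ r : ℝ in 𝓝[>] 0, 0 < r := self_mem_nhdsWithin
  have hlt1 : ∀ᶠ r : ℝ in 𝓝[>] 0, r < 1 :=
    mem_nhdsWithin_of_mem_nhds (gt_mem_nhds (by norm_num : (0 : ℝ) < 1))
  -- the exponent of the volume
  set N : ℝ := 2 * ((d : ℝ) + 1) + 2 / ((d : ℝ) - 1) + M * ε₁ with hN
  have hev1 : ∀ᶠ r : ℝ in 𝓝[>] 0, G ^ N * r ^ (ε / 2) < 1 := ev_small (by positivity) one_pos
  have hev2 : ∀ᶠ r : ℝ in 𝓝[>] 0, G ^ (E + ε₁) * r ^ (ε / 2) < 1 :=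
    ev_small (by positivity) one_pos
  have hev3 : ∀ᶠ r : ℝ in 𝓝[>] 0, (K8 d * 2 ^ (d - 1)) * r ^ (ε₁ * ((d : ℝ) - 1) / 2) < 1 :=
    ev_small (by positivity) one_pos
  have hev4 : ∀ᶠ r : ℝ in 𝓝[>] 0, K8 d * r ^ (F + ε₁ - ε₁ * ((d : ℝ) - 1) / 2) < 1 := by
    refine ev_small ?_ one_pos
    nlinarith
  have hev5 : ∀ᶠ r : ℝ in 𝓝[>] 0, ((d : ℝ) + 1) ^ 2 * r ^ (1 : ℝ) < 1 := ev_small one_pos one_pos
  have hev6 : ∀ᶠ r : ℝ in 𝓝[>] 0, (K8 d) * r ^ (1 : ℝ) < 1 := ev_small one_pos one_pos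
  -- the same with `r / G`
  have hdiv : Tendsto (fun r : ℝ => r / G) (𝓝[>] 0) (𝓝[>] 0) := by
    rw [tendsto_nhdsWithin_iff]
    refine ⟨?_, ?_⟩
    · have h1 : Tendsto (fun r : ℝ => r / G) (𝓝 0) (𝓝 (0 / G)) :=
        (continuous_id.div_const G).tendsto 0
      rw [zero_div] at h1
      exact h1.mono_left nhdsWithin_le_nhds
    · filter_upwards [hmem0] with r hr
      exact div_pos hr hG0
  have hr₀e : ∀ᶠ r : ℝ in 𝓝[>] 0, r < r₀ := mem_nhdsWithin_of_mem_nhds (gt_mem_nhds hr₀)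
  filter_upwards [hmem0, hlt1, hev1, hev2, hdiv.eventually hev3, hdiv.eventually hev4,
    hdiv.eventually hev5, hdiv.eventually hev6, hdiv.eventually hr₀e] with R hR0 hR1 e1 e2 e3 e4 e5
      e6 e7
  obtain ⟨r, hr⟩ : ∃ r : ℝ, r = R / G := ⟨_, rfl⟩
  rw [← hr] at e3 e4 e5 e6 e7
  rw [Real.rpow_one] at e5 e6
  have hr0 : 0 < r := by rw [hr]; positivity
  have hRG : R = G * r := by rw [hr]; field_simp
  have hrR : r ≤ R := by
    rw [hRG]
    nlinarith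
  have hr1 : r < 1 := by linarith
  -- the radii
  obtain ⟨ρ, hρ⟩ : ∃ ρ : ℝ, ρ = r ^ (F + ε₁ / 2) := ⟨_, rfl⟩
  obtain ⟨η, hη⟩ : ∃ η : ℝ, η = r ^ (E + ε₁) := ⟨_, rfl⟩
  obtain ⟨δ, hδ⟩ : ∃ δ : ℝ, δ = r ^ (1 + ε₁ * ((d : ℝ) - 1)) := ⟨_, rfl⟩
  have hρ0 : 0 < ρ := by rw [hρ]; exact Real.rpow_pos_of_pos hr0 _
  have hη0 : 0 < η := by rw [hη]; exact Real.rpow_pos_of_pos hr0 _
  have hδ0 : 0 < δ := by rw [hδ]; exact Real.rpow_pos_of_pos hr0 _
  have hηr : η ≤ r := by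
    rw [hη]
    calc r ^ (E + ε₁) ≤ r ^ (1 : ℝ) := Real.rpow_le_rpow_of_exponent_ge hr0 hr1.le (by linarith)
      _ = r := Real.rpow_one r
  have hδr : δ ≤ r := by
    rw [hδ]
    calc r ^ (1 + ε₁ * ((d : ℝ) - 1)) ≤ r ^ (1 : ℝ) :=
          Real.rpow_le_rpow_of_exponent_ge hr0 hr1.le (by nlinarith)
      _ = r := Real.rpow_one r
  have hρp : ρ ^ (d - 1) = r ^ (1 + ε₁ * ((d : ℝ) - 1) / 2) := by
    rw [hρ, ← Real.rpow_natCast, ← Real.rpow_mul hr0.le, hcast]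
    congr 1
    linear_combination hFd
  have hδρ : K8 d * δ ≤ (ρ / 2) ^ (d - 1) := by
    rw [div_pow, hρp, le_div_iff₀ (by positivity)]
    have h1 : K8 d * δ * 2 ^ (d - 1) =
        (K8 d * 2 ^ (d - 1) * r ^ (ε₁ * ((d : ℝ) - 1) / 2)) * r ^ (1 + ε₁ * ((d : ℝ) - 1) / 2) := by
      rw [hδ, mul_assoc (K8 d * 2 ^ (d - 1)), ← Real.rpow_add hr0]
      have : ε₁ * ((d : ℝ) - 1) / 2 + (1 + ε₁ * ((d : ℝ) - 1) / 2) = 1 + ε₁ * ((d : ℝ) - 1) := by
        ring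
      rw [this]
      ring
    rw [h1]
    have h2 := Real.rpow_pos_of_pos hr0 (1 + ε₁ * ((d : ℝ) - 1) / 2)
    nlinarith
  have hηρ : K8 d * η ≤ ρ ^ (d - 1) := by
    rw [hρp]
    have h1 : K8 d * η = (K8 d * r ^ (F + ε₁ - ε₁ * ((d : ℝ) - 1) / 2)) *
        r ^ (1 + ε₁ * ((d : ℝ) - 1) / 2) := by
      rw [hη, mul_assoc, ← Real.rpow_add hr0]
      congr 2
      rw [hFE]
      ring
    rw [h1]
    have h2 := Real.rpow_pos_of_pos hr0 (1 + ε₁ * ((d : ℝ) - 1) / 2)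
    nlinarith
  have hδd : δ * ((d : ℝ) + 1) ^ 2 ≤ 1 := by
    have : δ * ((d : ℝ) + 1) ^ 2 ≤ r * ((d : ℝ) + 1) ^ 2 := by gcongr
    linarith
  have hηd : η * ((d : ℝ) + 1) ^ 2 ≤ 1 := by
    have : η * ((d : ℝ) + 1) ^ 2 ≤ r * ((d : ℝ) + 1) ^ 2 := by gcongr
    linarith
  rw [← hE] at H
  rw [← hF] at H
  constructor
  · -- the volume
    have hsl : ∀ x : Fin d → ℂ, ‖x‖ ≤ δ → ENNReal.ofReal (Real.pi * η ^ 2) ≤
        volume {t : ℂ | (Fin.cons t x : Fin (d + 1) → ℂ) ∈ OS d ∩ closedBall (ee d c₀) R} := by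
      intro x hx
      obtain ⟨b, hb⟩ : ∃ b : Fin (d + 1) → ℂ, b = Fin.cons c₀ x := ⟨_, rfl⟩
      have hbe : ‖b - ee d c₀‖ ≤ δ := by
        rw [pi_norm_le_iff_of_nonneg hδ0.le]
        intro i
        refine Fin.cases ?_ (fun j => ?_) i
        · rw [Pi.sub_apply, hb, Fin.cons_zero, ee_zero, sub_self, norm_zero]
          exact hδ0.le
        · rw [Pi.sub_apply, hb, Fin.cons_succ, ee_ne d _ (Fin.succ_ne_zero j), sub_zero]
          exact (norm_le_pi_norm x j).trans hx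
      have hKδ : K8 d * δ < 1 := by
        have : K8 d * δ ≤ K8 d * r := by gcongr
        linarith
      obtain ⟨κ, hκ⟩ := exists_crit hd hbe hKδ
      have hbi : ∀ i, i ≠ 0 → ‖b i‖ ≤ δ := by
        intro i hi
        have h1 := (norm_le_pi_norm (b - ee d c₀) i).trans hbe
        rwa [Pi.sub_apply, ee_ne d _ hi, sub_zero] at h1
      have hκρ := crit_in hd hbi (ρ := ρ / 2) (by positivity) hδ0.le hδρ hδd hκ
      have hρ1 : ρ ≤ 1 := by
        rw [hρ]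
        exact Real.rpow_le_one hr0.le hr1.le (by positivity)
      obtain ⟨t₁, n, ht₁, htr⟩ := H r hr0 e7.le b (hbe.trans hδr) κ hκ (by linarith)
      rw [← hη, ← hρ] at htr
      have hsub : ball (c₀ + t₁) η ⊆
          {t : ℂ | (Fin.cons t x : Fin (d + 1) → ℂ) ∈ OS d ∩ closedBall (ee d c₀) R} := by
        intro t ht
        rw [mem_ball, dist_eq_norm] at ht
        obtain ⟨b', hb'⟩ : ∃ b' : Fin (d + 1) → ℂ, b' = Fin.cons t x := ⟨_, rfl⟩
        have h1 : b' - (b + Pi.single 0 t₁) = Pi.single 0 (t - (c₀ + t₁)) := by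
          funext i
          refine Fin.cases ?_ (fun j => ?_) i
          · rw [Pi.sub_apply, Pi.add_apply, hb', hb, Fin.cons_zero, Fin.cons_zero,
              Pi.single_eq_same, Pi.single_eq_same]
          · rw [Pi.sub_apply, Pi.add_apply, hb', hb, Fin.cons_succ, Fin.cons_succ,
              Pi.single_eq_of_ne (Fin.succ_ne_zero j), Pi.single_eq_of_ne (Fin.succ_ne_zero j)]
            ring
        have h2 : ‖b' - (b + Pi.single 0 t₁)‖ ≤ η := by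
          rw [h1, Pi.norm_single]
          exact ht.le
        have hb'i : ∀ i, i ≠ 0 → ‖b' i‖ ≤ δ := by
          intro i
          refine Fin.cases ?_ (fun j => ?_) i
          · intro h3
            exact absurd rfl h3
          · intro _
            rw [hb', Fin.cons_succ]
            exact (norm_le_pi_norm x j).trans hx
        show (Fin.cons t x : Fin (d + 1) → ℂ) ∈ OS d ∩ closedBall (ee d c₀) R
        rw [← hb']
        refine ⟨os_of_trap hSINK hρ0 (htr b' h2) ?_, ?_⟩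
        · intro ω hω
          have h3 := crit_in hd hb'i (ρ := ρ / 2) (by positivity) hδ0.le hδρ hδd hω
          rw [mem_closedBall, dist_eq_norm]
          calc ‖ω - κ‖ ≤ ‖ω‖ + ‖κ‖ := norm_sub_le _ _
            _ ≤ ρ := by linarith
        · rw [mem_closedBall, dist_eq_norm, pi_norm_le_iff_of_nonneg hR0.le]
          intro i
          refine Fin.cases ?_ (fun j => ?_) i
          · rw [Pi.sub_apply, hb', Fin.cons_zero, ee_zero]
            calc ‖t - c₀‖ = ‖(t - (c₀ + t₁)) + t₁‖ := by congr 1; ring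
              _ ≤ ‖t - (c₀ + t₁)‖ + ‖t₁‖ := norm_add_le _ _
              _ ≤ r + C * r := by linarith
              _ = R := by rw [hRG, hG]; ring
          · rw [Pi.sub_apply, hb', Fin.cons_succ, ee_ne d _ (Fin.succ_ne_zero j), sub_zero]
            exact ((norm_le_pi_norm x j).trans hx).trans (hδr.trans hrR)
      refine le_trans ?_ (measure_mono hsub)
      rw [Pool.Agent.Y298.CA.vol_b' _ hη0.le]
    have h1 := hFUB d (OS d ∩ closedBall (ee d c₀) R) δ (Real.pi * η ^ 2) hδ0 (by positivity) hsl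
    refine le_trans ?_ h1
    rw [← ENNReal.ofReal_mul (by positivity)]
    apply ENNReal.ofReal_le_ofReal
    have h2 : η ^ 2 * (δ ^ 2) ^ d = r ^ N := by
      rw [hη, hδ, ← Real.rpow_natCast (r ^ (E + ε₁)) 2, ← Real.rpow_mul hr0.le, ← pow_mul,
        ← Real.rpow_natCast (r ^ (1 + ε₁ * ((d : ℝ) - 1))) (2 * d), ← Real.rpow_mul hr0.le,
        ← Real.rpow_add hr0]
      congr 1
      rw [hN, hM, hFE]
      have h3 : 2 / ((d : ℝ) - 1) = 2 * F := by rw [hF]; ring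
      rw [h3]
      push_cast
      ring
    have h3 : r ^ N = R ^ N / G ^ N := by
      rw [hr, Real.div_rpow hR0.le hG0.le]
    have h4 : R ^ (2 * ((d : ℝ) + 1) + 2 / ((d : ℝ) - 1) + ε) ≤ r ^ N := by
      rw [h3, le_div_iff₀ (by positivity)]
      have h5 : R ^ (2 * ((d : ℝ) + 1) + 2 / ((d : ℝ) - 1) + ε) ≤ R ^ N * R ^ (ε / 2) := by
        rw [← Real.rpow_add hR0]
        apply Real.rpow_le_rpow_of_exponent_ge hR0 hR1.le
        rw [hN]
        linarith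
      have h6 := Real.rpow_pos_of_pos hR0 N
      calc R ^ (2 * ((d : ℝ) + 1) + 2 / ((d : ℝ) - 1) + ε) * G ^ N
          ≤ (R ^ N * R ^ (ε / 2)) * G ^ N := by gcongr
        _ = R ^ N * (G ^ N * R ^ (ε / 2)) := by ring
        _ ≤ R ^ N * 1 := by gcongr
        _ = R ^ N := mul_one _
    refine h4.trans ?_
    rw [← h2]
    have hpi : 1 ≤ Real.pi := by linarith [Real.pi_gt_three]
    have h5 : (1 : ℝ) ≤ Real.pi * Real.pi ^ d := one_le_mul_of_one_le_of_one_le hpi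
      (one_le_pow₀ hpi)
    calc η ^ 2 * (δ ^ 2) ^ d ≤ (Real.pi * Real.pi ^ d) * (η ^ 2 * (δ ^ 2) ^ d) :=
          le_mul_of_one_le_left (by positivity) h5
      _ = _ := by
          rw [mul_pow]
          ring
  · -- the inradius
    have h0 : dF d (ee d c₀) 0 = 0 := by
      rw [dF_ee, zero_pow (by omega), mul_zero]
    obtain ⟨t₁, n, ht₁, htr⟩ := H r hr0 e7.le (ee d c₀) (by rw [sub_self, norm_zero]; exact hr0.le) 0
      h0 (by rw [norm_zero]; norm_num)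
    rw [← hη, ← hρ] at htr
    refine ⟨ee d c₀ + Pi.single 0 t₁, ?_⟩
    have hRη : R ^ (E + ε) ≤ η := by
      have h3 : η = R ^ (E + ε₁) / G ^ (E + ε₁) := by
        rw [hη, hr, Real.div_rpow hR0.le hG0.le]
      rw [h3, le_div_iff₀ (by positivity)]
      have h5 : R ^ (E + ε) ≤ R ^ (E + ε₁) * R ^ (ε / 2) := by
        rw [← Real.rpow_add hR0]
        apply Real.rpow_le_rpow_of_exponent_ge hR0 hR1.le
        linarith
      have h6 := Real.rpow_pos_of_pos hR0 (E + ε₁)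
      calc R ^ (E + ε) * G ^ (E + ε₁) ≤ (R ^ (E + ε₁) * R ^ (ε / 2)) * G ^ (E + ε₁) := by gcongr
        _ = R ^ (E + ε₁) * (G ^ (E + ε₁) * R ^ (ε / 2)) := by ring
        _ ≤ R ^ (E + ε₁) * 1 := by gcongr
        _ = _ := mul_one _
    intro b' hb'
    rw [mem_ball, dist_eq_norm, ← hE] at hb'
    have h2 : ‖b' - (ee d c₀ + Pi.single 0 t₁)‖ ≤ η := hb'.le.trans hRη
    have hb'i : ∀ i, i ≠ 0 → ‖b' i‖ ≤ η := by
      intro i hi
      have h3 := (norm_le_pi_norm (b' - (ee d c₀ + Pi.single 0 t₁)) i).trans h2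
      rwa [Pi.sub_apply, Pi.add_apply, ee_ne d _ hi, Pi.single_eq_of_ne hi, add_zero, sub_zero]
        at h3
    refine ⟨os_of_trap hSINK hρ0 (htr b' h2) ?_, ?_⟩
    · intro ω hω
      have h3 := crit_in hd hb'i hρ0.le hη0.le hηρ hηd hω
      rw [mem_closedBall_zero_iff]
      exact h3
    · rw [mem_closedBall, dist_eq_norm]
      have h3 : ‖(ee d c₀ + Pi.single 0 t₁) - ee d c₀‖ ≤ C * r := by
        rw [add_sub_cancel_left, Pi.norm_single]
        exact ht₁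
      calc ‖b' - ee d c₀‖ = ‖(b' - (ee d c₀ + Pi.single 0 t₁)) +
            ((ee d c₀ + Pi.single 0 t₁) - ee d c₀)‖ := by congr 1; abel
        _ ≤ ‖b' - (ee d c₀ + Pi.single 0 t₁)‖ + ‖(ee d c₀ + Pi.single 0 t₁) - ee d c₀‖ :=
            norm_add_le _ _
        _ ≤ r + C * r := by linarith
        _ = R := by rw [hRG, hG]; ring

end Pool.Agent.Y298.EX
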