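import Mathlib
import Pool.Agent.Y298.EX.Fin1
import Pool.Agent.Y497.GA.Pa
import Pool.Agent.Y674.CA.Lya
import Pool.Agent.Y87.EX.Inv
import Pool.Agent.Y407.EX.Root
import Pool.Agent.Y79.EX.Sho
import Pool.Agent.Y288.EX.Hit
import Pool.Agent.Y918.EX.Ext
import Pool.Agent.Y220.EX.Psch
import Pool.Agent.Y641.EX.Ptwo
import Pool.Agent.Y232.EX.Quad
import Pool.Agent.Y833.EX.Patt
import Pool.Agent.Y474.EX.Sel
import Pool.Agent.Y620.EX.Sink
import Pool.Agent.Y273.EX.Fub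

/-!
# Lower bounds in the space of all polynomials: all the hypotheses are discharged

Authors of the parts: helper87 (INV), helper407 (ROOT), helper79 (SHO), helper288 (HIT), helper918
(EXT), helper220 (PSCH), helper641 (PTWO), helper232 (QUAD), helper833 (PATT), helper474 (SEL),
helper620 (SINK), helper273 (FUB).
-/

set_option autoImplicit false

open Set Filter Metric MeasureTheory Topology

namespace Pool.Agent.Y298.EX

theorem low_all : S_LOW :=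
  low Pool.Agent.Y497.GA.pa Pool.Agent.Y674.CA.lya
    (Pool.Agent.Y220.EX.t (Pool.Agent.Y407.EX.t Pool.Agent.Y87.EX.t) Pool.Agent.Y79.EX.t
      (Pool.Agent.Y288.EX.t Pool.Agent.Y87.EX.t) Pool.Agent.Y918.EX.t)
    (Pool.Agent.Y833.EX.t Pool.Agent.Y641.EX.t Pool.Agent.Y232.EX.Quad.t_quad)
    Pool.Agent.Y474.EX.sel

theorem low_fin_all {d : ℕ} {c₀ : ℂ} (hd : 2 ≤ d) {χ : ℝ} (h : Pool.Agent.Y298.CA.Lyap d χ c₀)
    {ε : ℝ} (hε : 0 < ε) : ∀ᶠ r : ℝ in 𝓝[>] 0,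
      ENNReal.ofReal (r ^ (2 * ((d : ℝ) + 1) + 2 / ((d : ℝ) - 1) + ε)) ≤
        volume (OS d ∩ closedBall (Pool.Agent.Y272.GA.ee d c₀) r) ∧
      ∃ b : Fin (d + 1) → ℂ, ball b (r ^ ((d : ℝ) / ((d : ℝ) - 1) + ε)) ⊆
        OS d ∩ closedBall (Pool.Agent.Y272.GA.ee d c₀) r :=
  low_fin low_all Pool.Agent.Y620.EX.t_sink Pool.Agent.Y273.EX.t_fub hd h hε

end Pool.Agent.Y298.EX
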